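import Mathlib
import Pool.Agent.H413R3.KGOpt

set_option autoImplicit false

open Filter Topology

namespace Pool.Agent.Helper47K9.UD

open Pool.Agent.H413R3 Pool.Agent.H413R3.KG
open GP (cnt cnt_mono cnt_eq_sum)

/-- the sizes of the finite subsets of `S ∩ [1, m]` without `k`-term geometric progression -/
def Sizes (k : ℕ) (S : Set ℕ) (m : ℕ) : Set ℕ :=
  {c | ∃ T : Finset ℕ, (∀ t ∈ T, 1 ≤ t ∧ t ≤ m ∧ t ∈ S) ∧ GPF k (T : Set ℕ) ∧ T.card = c}

/-- the maximal size of a subset of `S ∩ [1, m]` without `k`-term geometric progression -/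
noncomputable def mx (k : ℕ) (S : Set ℕ) (m : ℕ) : ℕ := sSup (Sizes k S m)

lemma sizes_le {k : ℕ} {S : Set ℕ} {m c : ℕ} (h : c ∈ Sizes k S m) : c ≤ m := by
  obtain ⟨T, hT, _, rfl⟩ := h
  have : T ⊆ Finset.Icc 1 m := fun t ht => Finset.mem_Icc.2 ⟨(hT t ht).1, (hT t ht).2.1⟩
  have := Finset.card_le_card this
  simpa using this

lemma sizes_zero {k : ℕ} (hk : 3 ≤ k) (S : Set ℕ) (m : ℕ) : 0 ∈ Sizes k S m :=
  ⟨∅, by simp, by rw [Finset.coe_empty]; exact gpf_empty hk, rfl⟩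

lemma sizes_bdd (k : ℕ) (S : Set ℕ) (m : ℕ) : BddAbove (Sizes k S m) := ⟨m, fun _ h => sizes_le h⟩

lemma mx_mem {k : ℕ} (hk : 3 ≤ k) (S : Set ℕ) (m : ℕ) : mx k S m ∈ Sizes k S m :=
  Nat.sSup_mem ⟨0, sizes_zero hk S m⟩ (sizes_bdd k S m)

lemma le_mx {k : ℕ} {S : Set ℕ} {m c : ℕ} (h : c ∈ Sizes k S m) : c ≤ mx k S m :=
  le_csSup (sizes_bdd k S m) h

lemma mx_le {k : ℕ} (hk : 3 ≤ k) (S : Set ℕ) (m : ℕ) : mx k S m ≤ m := sizes_le (mx_mem hk S m)

lemma mx_zero {k : ℕ} (hk : 3 ≤ k) (S : Set ℕ) : mx k S 0 = 0 := by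
  have := mx_le hk S 0
  omega

/-- a GP free set has at most `mx` elements in `[1, m]` -/
lemma cnt_le_mx {k : ℕ} {S A : Set ℕ} (hA : GPF k A) (hAS : A ⊆ S) (m : ℕ) :
    cnt A m ≤ mx k S m := by
  classical
  apply le_mx
  refine ⟨(Finset.Icc 1 m).filter (· ∈ A), ?_, ?_, (cnt_eq_card A m).symm⟩
  · intro t ht
    rw [Finset.mem_filter, Finset.mem_Icc] at ht
    exact ⟨ht.1.1, ht.1.2, hAS ht.2⟩
  · refine gpf_mono ?_ hA
    intro t ht
    rw [Finset.mem_coe, Finset.mem_filter] at ht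
    exact ht.2

lemma mx_step {k : ℕ} (hk : 3 ≤ k) (S : Set ℕ) (m : ℕ) :
    mx k S m ≤ mx k S (m + 1) ∧ mx k S (m + 1) ≤ mx k S m + 1 ∧
      (m + 1 ∉ S → mx k S (m + 1) = mx k S m) := by
  classical
  have h1 : mx k S m ≤ mx k S (m + 1) := by
    obtain ⟨T, hT, hg, hc⟩ := mx_mem hk S m
    exact le_mx ⟨T, fun t ht => ⟨(hT t ht).1, (hT t ht).2.1.trans (Nat.le_succ m), (hT t ht).2.2⟩,
      hg, hc⟩
  obtain ⟨T, hT, hg, hc⟩ := mx_mem hk S (m + 1)
  have h2 : (T.erase (m + 1)).card ≤ mx k S m := by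
    apply le_mx
    refine ⟨T.erase (m + 1), fun t ht => ?_, ?_, rfl⟩
    · rw [Finset.mem_erase] at ht
      have := hT t ht.2
      exact ⟨this.1, by omega, this.2.2⟩
    · refine gpf_mono ?_ hg
      intro t ht
      exact Finset.mem_coe.2 (Finset.mem_of_mem_erase (Finset.mem_coe.1 ht))
  refine ⟨h1, ?_, ?_⟩
  · have := Finset.pred_card_le_card_erase (a := m + 1) (s := T)
    omega
  · intro hmS
    have hnot : m + 1 ∉ T := fun h => hmS (hT _ h).2.2
    rw [Finset.erase_eq_of_notMem hnot] at h2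
    omega

/-- the points where `mx` increases -/
def G (k : ℕ) (S : Set ℕ) : Set ℕ := {m | 1 ≤ m ∧ mx k S (m - 1) < mx k S m}

lemma G_sub {k : ℕ} (hk : 3 ≤ k) (S : Set ℕ) : G k S ⊆ S := by
  rintro m ⟨hm, h⟩
  by_contra hno
  obtain ⟨n, rfl⟩ : ∃ n, m = n + 1 := ⟨m - 1, by omega⟩
  have := (mx_step hk S n).2.2 hno
  rw [Nat.add_sub_cancel] at h
  omega

lemma cnt_G {k : ℕ} (hk : 3 ≤ k) (S : Set ℕ) (m : ℕ) : cnt (G k S) m = mx k S m := by
  induction m with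
  | zero => rw [cnt_zero, mx_zero hk]
  | succ m ih =>
    obtain ⟨h1, h2, _⟩ := mx_step hk S m
    by_cases h : m + 1 ∈ G k S
    · rw [cnt_succ_mem h, ih]
      have := h.2
      rw [Nat.add_sub_cancel] at this
      omega
    · rw [cnt_succ_not_mem h, ih]
      have h3 : ¬ mx k S m < mx k S (m + 1) := fun h' => h ⟨by omega, by rwa [Nat.add_sub_cancel]⟩
      omega

/-- fibres over the rough part -/
lemma fibre_card {K r N : ℕ} (hr : r ∈ Rough K) (A : Set ℕ) [DecidablePred (· ∈ A)]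
    [DecidablePred (· ∈ {s : ℕ | s ∈ Nat.smoothNumbers K ∧ s * r ∈ A})] :
    (((Finset.Icc 1 N).filter (· ∈ A)).filter (fun n => rg K n = r)).card =
      cnt {s : ℕ | s ∈ Nat.smoothNumbers K ∧ s * r ∈ A} (N / r) := by
  have hr0 : 0 < r := hr.1
  rw [cnt_eq_card]
  refine Finset.card_nbij' (fun n => sm K n) (fun s => s * r) ?_ ?_ ?_ ?_
  · intro n hn
    simp only [Finset.coe_filter, Finset.mem_filter, Finset.mem_Icc, Set.mem_ofPred_eq] at hn ⊢
    obtain ⟨⟨⟨h1, h2⟩, h3⟩, h4⟩ := hn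
    have h5 := sm_mul_rg K (n := n) (by omega)
    rw [h4] at h5
    refine ⟨⟨sm_pos K n, ?_⟩, sm_mem_smooth K n, ?_⟩
    · rw [Nat.le_div_iff_mul_le hr0, h5]; exact h2
    · rw [h5]; exact h3
  · intro s hs
    simp only [Finset.coe_filter, Finset.mem_filter, Finset.mem_Icc, Set.mem_ofPred_eq] at hs ⊢
    obtain ⟨⟨h1, h2⟩, h3, h4⟩ := hs
    rw [Nat.le_div_iff_mul_le hr0] at h2
    exact ⟨⟨⟨Nat.mul_pos h1 hr0, h2⟩, h4⟩, rg_mul h3 hr⟩
  · intro n hn
    simp only [Finset.coe_filter, Finset.mem_filter, Finset.mem_Icc, Set.mem_ofPred_eq] at hn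
    have h5 := sm_mul_rg K (n := n) (by omega)
    rw [hn.2] at h5
    exact h5
  · intro s hs
    simp only [Finset.coe_filter, Finset.mem_filter, Finset.mem_Icc, Set.mem_ofPred_eq] at hs
    exact sm_mul hs.2.1 hr

/-- summation over the rough part -/
lemma cnt_eq_sum_rough (K : ℕ) (A : Set ℕ) (N : ℕ) [DecidablePred (· ∈ Rough K)] :
    cnt A N = ∑ r ∈ (Finset.Icc 1 N).filter (· ∈ Rough K),
      cnt {s : ℕ | s ∈ Nat.smoothNumbers K ∧ s * r ∈ A} (N / r) := by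
  classical
  rw [cnt_eq_card, Finset.card_eq_sum_card_fiberwise (f := rg K)
    (t := (Finset.Icc 1 N).filter (· ∈ Rough K))]
  · refine Finset.sum_congr rfl fun r hr => ?_
    rw [Finset.mem_filter] at hr
    exact fibre_card hr.2 A
  · intro n hn
    simp only [Finset.coe_filter, Finset.mem_Icc, Set.mem_ofPred_eq] at hn ⊢
    exact ⟨⟨rg_pos K (by omega), (rg_le K (by omega)).trans hn.1.2⟩, rg_mem_rough K (by omega)⟩

lemma gpf_fibre {k : ℕ} {A : Set ℕ} (hA : GPF k A) (K : ℕ) {r : ℕ} (hr : 0 < r) :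
    GPF k {s : ℕ | s ∈ Nat.smoothNumbers K ∧ s * r ∈ A} := by
  intro f hf hrel
  have := hA (fun i => f i * r) (fun i hi => (hf i hi).2) (fun i hi => by
    have := hrel i hi
    show (f (i + 1) * r) ^ 2 = f i * r * (f (i + 2) * r)
    rw [mul_pow, this]; ring)
  exact Nat.eq_of_mul_eq_mul_right hr this

lemma cnt_D_rough {K : ℕ} {T C : Set ℕ} (hT : T ⊆ Nat.smoothNumbers K) (hC : C ⊆ Rough K) (N : ℕ)
    [DecidablePred (· ∈ Rough K)] [DecidablePred (· ∈ C)] :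
    cnt (D K T C) N = ∑ r ∈ (Finset.Icc 1 N).filter (· ∈ Rough K),
      if r ∈ C then cnt T (N / r) else 0 := by
  rw [cnt_eq_sum_rough K]
  refine Finset.sum_congr rfl fun r hr => ?_
  rw [Finset.mem_filter] at hr
  have hr0 : 0 < r := hr.2.1
  split_ifs with h
  · apply cnt_congr
    intro s hs
    simp only [D, Set.mem_ofPred_eq]
    constructor
    · rintro ⟨h1, h2, h3, h4⟩
      rwa [sm_mul h1 hr.2] at h3
    · intro h1
      refine ⟨hT h1, Nat.mul_pos hs hr0, ?_, ?_⟩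
      · rw [sm_mul (hT h1) hr.2]; exact h1
      · rw [rg_mul (hT h1) hr.2]; exact h
  · have : cnt {s : ℕ | s ∈ Nat.smoothNumbers K ∧ s * r ∈ D K T C} (N / r) ≤ cnt ∅ (N / r) := by
      apply cnt_mono
      intro s hs hs2
      simp only [D, Set.mem_ofPred_eq] at hs2
      rw [rg_mul hs2.1 hr.2] at hs2
      exact absurd hs2.2.2.2 h
    have h0 : cnt ∅ (N / r) = 0 := by unfold cnt; simp
    omega

/-- upper bound by the smooth problem -/
lemma cnt_le_D {k : ℕ} (hk : 3 ≤ k) (K : ℕ) {A : Set ℕ} (hA : GPF k A) (N : ℕ) :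
    cnt A N ≤ cnt (D K (G k (Nat.smoothNumbers K)) (Rough K)) N := by
  classical
  rw [cnt_D_rough (G_sub hk _) le_rfl, cnt_eq_sum_rough K A]
  refine Finset.sum_le_sum fun r hr => ?_
  rw [Finset.mem_filter] at hr
  rw [if_pos hr.2, cnt_G hk]
  exact cnt_le_mx (gpf_fibre hA K hr.2.1) (fun s hs => hs.1) _

/-- lower bound by the smooth problem -/
lemma D_le_mx {k : ℕ} (hk : 3 ≤ k) (K : ℕ) (N : ℕ) :
    cnt (D K (G k (Nat.smoothNumbers K)) (Fr k K)) N ≤ mx k Set.univ N := by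
  classical
  have hO : ∀ m, ∃ T : Finset ℕ, (∀ t ∈ T, 1 ≤ t ∧ t ≤ m ∧ t ∈ Nat.smoothNumbers K) ∧
      GPF k (T : Set ℕ) ∧ T.card = mx k (Nat.smoothNumbers K) m := fun m => mx_mem hk _ m
  choose O hO1 hO2 hO3 using hO
  set A : Set ℕ := {n | 1 ≤ n ∧ rg K n ∈ Fr k K ∧ sm K n ∈ O (N / rg K n)} with hA
  have hgpf : GPF k A := by
    intro f hf hrel
    have hpos : ∀ i < k, 1 ≤ f i := fun i hi => (hf i hi).1
    have hrc := rg_const hk (K := K) hpos hrel (fun i hi p hp => by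
      have h1 := (hf i hi).2.1.2 p
      rw [fac_rg K p (by have := hpos i hi; omega)] at h1
      rwa [if_neg (by omega)] at h1)
    have h0 := hO2 (N / rg K (f 0)) (fun i => sm K (f i)) (fun i hi => by
      have := (hf i hi).2.2
      rw [hrc i hi] at this
      exact Finset.mem_coe.2 this) (fun i hi => by
      exact sm_rel (hpos i (by omega)) (hpos (i + 1) (by omega)) (hpos (i + 2) hi) (hrel i hi))
    have e0 := sm_mul_rg K (n := f 0) (by have := hpos 0 (by omega); omega)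
    have e1 := sm_mul_rg K (n := f 1) (by have := hpos 1 (by omega); omega)
    rw [← e0, ← e1, hrc 1 (by omega)]
    congr 1
  refine le_trans ?_ (cnt_le_mx hgpf (Set.subset_univ _) N)
  rw [cnt_D_rough (G_sub hk _) (fr_sub k K), cnt_eq_sum_rough K A]
  refine Finset.sum_le_sum fun r hr => ?_
  rw [Finset.mem_filter] at hr
  split_ifs with h
  · rw [cnt_G hk, ← hO3 (N / r), ← Set.ncard_coe_finset]
    unfold cnt
    apply Set.ncard_le_ncard
    · intro t ht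
      have h1 := hO1 (N / r) t (Finset.mem_coe.1 ht)
      refine ⟨⟨h1.2.2, Nat.mul_pos h1.1 hr.2.1, ?_, ?_⟩, h1.1, h1.2.1⟩
      · rw [rg_mul h1.2.2 hr.2]; exact h
      · rw [rg_mul h1.2.2 hr.2, sm_mul h1.2.2 hr.2]
        exact Finset.mem_coe.1 ht
    · exact (Set.finite_Icc 1 _).inter_of_right _
  · exact Nat.zero_le _

end Pool.Agent.Helper47K9.UD
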