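import Mathlib
import Pool.Agent.Helper47K9.UD.Max

set_option autoImplicit false

open Filter Topology

namespace Pool.Agent.Helper47K9.UD

open Pool.Agent.H413R3 Pool.Agent.H413R3.KG
open GP (cnt cnt_mono cnt_eq_sum)

/-- the `K`-smooth bound -/
noncomputable def U (k K : ℕ) : ℝ := P K * W (G k (Nat.smoothNumbers K))

lemma U_dens {k : ℕ} (hk : 3 ≤ k) (K : ℕ) :
    Dens (D K (G k (Nat.smoothNumbers K)) (Rough K)) (U k K) :=
  dens_D (G_sub hk _) le_rfl (rough_dens K)

lemma U_nonneg (k K : ℕ) : 0 ≤ U k K := mul_nonneg (P_pos K).le (W_nonneg _)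

lemma U_le_one {k : ℕ} (hk : 3 ≤ k) (K : ℕ) : U k K ≤ 1 := PW_le_one (G_sub hk _)

lemma V_dens {k : ℕ} (hk : 3 ≤ k) {K : ℕ} (hK : 2 ≤ K) :
    ∃ v : ℝ, (1 - 1 / ((K : ℝ) - 1)) * U k K ≤ v ∧
      Dens (D K (G k (Nat.smoothNumbers K)) (Fr k K)) v := by
  obtain ⟨γ, hγ⟩ := fr_dens_exists hk K
  refine ⟨γ * W (G k (Nat.smoothNumbers K)), ?_, dens_D (G_sub hk _) (fr_sub k K) hγ⟩
  have h1 := fr_dens_ge hk hK hγ
  have h2 := W_nonneg (G k (Nat.smoothNumbers K))
  unfold U
  nlinarith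

theorem exists_limit {k : ℕ} (hk : 3 ≤ k) : ∃ α : ℝ,
    Tendsto (fun N : ℕ => (mx k Set.univ N : ℝ) / N) atTop (𝓝 α) ∧
    ∀ K : ℕ, 2 ≤ K → (1 - 1 / ((K : ℝ) - 1)) * U k K ≤ α ∧ α ≤ U k K := by
  have hup : ∀ K N : ℕ, (mx k Set.univ N : ℝ) / N ≤
      (cnt (D K (G k (Nat.smoothNumbers K)) (Rough K)) N : ℝ) / N := by
    intro K N
    obtain ⟨T, hT, hg, hc⟩ := mx_mem hk Set.univ N
    have h1 : mx k Set.univ N ≤ cnt (D K (G k (Nat.smoothNumbers K)) (Rough K)) N := by
      refine le_trans ?_ (cnt_le_D hk K hg N)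
      rw [← hc, ← Set.ncard_coe_finset]
      unfold cnt
      apply Set.ncard_le_ncard _ ((Set.finite_Icc 1 N).inter_of_right _)
      intro t ht
      have := hT t (Finset.mem_coe.1 ht)
      exact ⟨ht, this.1, this.2.1⟩
    have h2 : (mx k Set.univ N : ℝ) ≤ cnt (D K (G k (Nat.smoothNumbers K)) (Rough K)) N := by
      exact_mod_cast h1
    exact div_le_div_of_nonneg_right h2 (Nat.cast_nonneg N)
  have hlow : ∀ K N : ℕ, (cnt (D K (G k (Nat.smoothNumbers K)) (Fr k K)) N : ℝ) / N ≤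
      (mx k Set.univ N : ℝ) / N := by
    intro K N
    have h2 : (cnt (D K (G k (Nat.smoothNumbers K)) (Fr k K)) N : ℝ) ≤ mx k Set.univ N := by
      exact_mod_cast D_le_mx hk K N
    exact div_le_div_of_nonneg_right h2 (Nat.cast_nonneg N)
  have hC : CauchySeq (fun N : ℕ => (mx k Set.univ N : ℝ) / N) := by
    rw [Metric.cauchySeq_iff']
    intro ε hε
    obtain ⟨K, hK⟩ := exists_nat_gt (2 + 4 / ε)
    have h4 : (0 : ℝ) < 4 / ε := by positivity
    have hK2 : 2 ≤ K := by
      have : (2 : ℝ) < K := by linarith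
      exact_mod_cast this.le
    have hK1 : (0 : ℝ) < (K : ℝ) - 1 := by linarith
    obtain ⟨v, hv1, hv2⟩ := V_dens hk hK2
    have hsm : 1 / ((K : ℝ) - 1) < ε / 4 := by
      rw [div_lt_iff₀ hK1]
      have : 4 / ε < (K : ℝ) - 1 := by linarith
      rw [div_lt_iff₀ hε] at this
      linarith
    have hUv : U k K - v ≤ ε / 4 := by
      have h1 := U_le_one hk K
      have h2 := U_nonneg k K
      have h3 : (1 / ((K : ℝ) - 1)) * U k K ≤ ε / 4 := by
        have h5 : 0 ≤ 1 / ((K : ℝ) - 1) := by positivity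
        nlinarith
      linarith
    have e1 := (U_dens hk K)
    have e2 := hv2
    unfold Dens at e1 e2
    rw [Metric.tendsto_atTop] at e1 e2
    obtain ⟨N1, h1⟩ := e1 (ε / 8) (by positivity)
    obtain ⟨N2, h2⟩ := e2 (ε / 8) (by positivity)
    have hb : ∀ N : ℕ, N1 ≤ N → N2 ≤ N → (mx k Set.univ N : ℝ) / N ≤ U k K + ε / 8 ∧
        v - ε / 8 ≤ (mx k Set.univ N : ℝ) / N := by
      intro N hN1 hN2
      have a1 := h1 N hN1
      have a2 := h2 N hN2
      rw [Real.dist_eq, abs_lt] at a1 a2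
      have b1 := hup K N
      have b2 := hlow K N
      constructor <;> linarith [a1.1, a1.2, a2.1, a2.2]
    refine ⟨max N1 N2, fun n hn => ?_⟩
    have c1 := hb n (le_trans (le_max_left _ _) hn) (le_trans (le_max_right _ _) hn)
    have c2 := hb (max N1 N2) (le_max_left _ _) (le_max_right _ _)
    rw [Real.dist_eq, abs_lt]
    constructor <;> linarith [c1.1, c1.2, c2.1, c2.2]
  obtain ⟨α, hα⟩ := cauchySeq_tendsto_of_complete hC
  refine ⟨α, hα, fun K hK => ⟨?_, ?_⟩⟩
  · obtain ⟨v, hv1, hv2⟩ := V_dens hk hK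
    exact hv1.trans (le_of_tendsto_of_tendsto' hv2 hα (hlow K))
  · exact le_of_tendsto_of_tendsto' hα (U_dens hk K) (hup K)

/-- upper density -/
noncomputable def ud (A : Set ℕ) : ℝ := limsup (fun n : ℕ => (cnt A n : ℝ) / n) atTop

lemma frac_nonneg (A : Set ℕ) (n : ℕ) : 0 ≤ (cnt A n : ℝ) / n := by positivity

lemma frac_le_one (A : Set ℕ) (n : ℕ) : (cnt A n : ℝ) / n ≤ 1 := by
  have : (cnt A n : ℝ) ≤ n := by exact_mod_cast cnt_le A n
  exact div_le_one_of_le₀ this (Nat.cast_nonneg n)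

lemma frac_bdd (A : Set ℕ) :
    IsBoundedUnder (· ≤ ·) atTop (fun n : ℕ => (cnt A n : ℝ) / n) :=
  isBoundedUnder_of ⟨1, frac_le_one A⟩

lemma frac_cobdd (A : Set ℕ) :
    IsCoboundedUnder (· ≤ ·) atTop (fun n : ℕ => (cnt A n : ℝ) / n) :=
  (isBoundedUnder_of ⟨0, frac_nonneg A⟩ : IsBoundedUnder (· ≥ ·) atTop
    (fun n : ℕ => (cnt A n : ℝ) / n)).isCoboundedUnder_le

lemma ud_nonneg (A : Set ℕ) : 0 ≤ ud A :=
  le_limsup_of_le (frac_bdd A) fun b hb => by
    obtain ⟨n, hn⟩ := hb.exists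
    exact (frac_nonneg A n).trans hn

lemma ud_le_of_gpf {k : ℕ} {α : ℝ}
    (hα : Tendsto (fun N : ℕ => (mx k Set.univ N : ℝ) / N) atTop (𝓝 α)) {A : Set ℕ}
    (hA : GPF k A) : ud A ≤ α := by
  rw [← hα.limsup_eq]
  refine limsup_le_limsup (Eventually.of_forall fun n => ?_) (frac_cobdd A)
    hα.isBoundedUnder_le
  have : (cnt A n : ℝ) ≤ mx k Set.univ n := by
    exact_mod_cast cnt_le_mx hA (Set.subset_univ _) n
  exact div_le_div_of_nonneg_right this (Nat.cast_nonneg n)

/-- thinning out a set to a prescribed upper density -/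
lemma exists_subset_ud (A : Set ℕ) {d : ℝ} (hd0 : 0 ≤ d) (hd : d ≤ ud A) :
    ∃ B ⊆ A, ud B = d := by
  classical
  set c : ℕ → ℕ := fun n => Nat.rec 0
    (fun n c => if n + 1 ∈ A ∧ ((c : ℝ) + 1 ≤ d * ((n : ℝ) + 1)) then c + 1 else c) n with hc
  have c0 : c 0 = 0 := rfl
  have cs : ∀ n, c (n + 1) = if n + 1 ∈ A ∧ ((c n : ℝ) + 1 ≤ d * ((n : ℝ) + 1)) then c n + 1
      else c n := fun n => rfl
  set B : Set ℕ := {n | 1 ≤ n ∧ n ∈ A ∧ ((c (n - 1) : ℝ) + 1 ≤ d * n)} with hB
  have hcB : ∀ n, cnt B n = c n := by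
    intro n
    induction n with
    | zero => rw [cnt_zero, c0]
    | succ n ih =>
      rw [cs]
      split_ifs with h
      · rw [cnt_succ_mem, ih]
        refine ⟨by omega, h.1, ?_⟩
        rw [Nat.add_sub_cancel]
        push_cast
        exact h.2
      · rw [cnt_succ_not_mem, ih]
        rintro ⟨_, h1, h2⟩
        rw [Nat.add_sub_cancel] at h2
        push_cast at h2
        exact h ⟨h1, h2⟩
  have hle : ∀ n : ℕ, (c n : ℝ) ≤ d * n := by
    intro n
    induction n with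
    | zero => rw [c0]; simp
    | succ n ih =>
      rw [cs]
      split_ifs with h
      · push_cast
        exact h.2
      · push_cast
        nlinarith
  refine ⟨B, fun n hn => hn.2.1, le_antisymm ?_ ?_⟩
  · unfold ud
    apply limsup_le_of_le (frac_cobdd B)
    filter_upwards [eventually_ge_atTop 1] with n hn
    have hnr : (0 : ℝ) < n := by exact_mod_cast hn
    rw [div_le_iff₀ hnr, hcB]
    exact hle n
  · by_contra hlt
    push Not at hlt
    obtain ⟨e, he1, he2⟩ := exists_between hlt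
    have hev := eventually_lt_of_limsup_lt he1 (frac_bdd B)
    obtain ⟨n0, hn0⟩ := eventually_atTop.1 hev
    -- beyond `n1` all elements of `A` are taken
    obtain ⟨n1, hn1⟩ := exists_nat_gt ((1 : ℝ) / (d - e))
    have hde : 0 < d - e := by linarith
    have he0 : 0 ≤ e := by
      have := hn0 n0 le_rfl
      linarith [frac_nonneg B n0]
    rw [div_lt_iff₀ hde] at hn1
    set n2 := max (n0 + 1) (n1 + 1) with hn2
    have htake : ∀ n, n2 ≤ n → n + 1 ∈ A → n + 1 ∈ B := by
      intro n hn hnA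
      refine ⟨by omega, hnA, ?_⟩
      rw [Nat.add_sub_cancel, ← hcB]
      have h1 : n0 + 1 ≤ n2 := le_max_left _ _
      have h2 : n1 + 1 ≤ n2 := le_max_right _ _
      have h3 := hn0 n (by omega)
      have hnr : (0 : ℝ) < n := by exact_mod_cast (by omega : 0 < n)
      rw [div_lt_iff₀ hnr] at h3
      have h4 : (n1 : ℝ) ≤ n := by exact_mod_cast (by omega : n1 ≤ n)
      push_cast
      nlinarith
    have hcmp : ∀ n, cnt A n ≤ cnt B n + n2 := by
      intro n
      induction n with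
      | zero => rw [cnt_zero]; omega
      | succ n ih =>
        by_cases hn : n2 ≤ n
        · by_cases hA : n + 1 ∈ A
          · rw [cnt_succ_mem hA, cnt_succ_mem (htake n hn hA)]
            omega
          · rw [cnt_succ_not_mem hA, cnt_succ_not_mem (fun h => hA h.2.1)]
            exact ih
        · have := cnt_le A (n + 1)
          omega
    have hud : ud A ≤ ud B := by
      have hlim : Tendsto (fun n : ℕ => (n2 : ℝ) / n) atTop (𝓝 0) :=
        tendsto_const_div_atTop_nhds_zero_nat _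
      unfold ud
      have h1 : limsup (fun n : ℕ => (cnt A n : ℝ) / n) atTop ≤
          limsup (fun n : ℕ => (cnt B n : ℝ) / n + (n2 : ℝ) / n) atTop := by
        refine limsup_le_limsup (Eventually.of_forall fun n => ?_) (frac_cobdd A) ?_
        · have : (cnt A n : ℝ) ≤ cnt B n + n2 := by exact_mod_cast hcmp n
          show (cnt A n : ℝ) / n ≤ (cnt B n : ℝ) / n + (n2 : ℝ) / n
          rw [← add_div]
          exact div_le_div_of_nonneg_right this (Nat.cast_nonneg n)
        · exact isBoundedUnder_le_add (frac_bdd B) hlim.isBoundedUnder_le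
      refine h1.trans ?_
      refine (limsup_add_le (isBoundedUnder_of ⟨0, frac_nonneg B⟩) (frac_bdd B)
        hlim.isCoboundedUnder_le hlim.isBoundedUnder_le).trans ?_
      rw [hlim.limsup_eq, add_zero]
    linarith

end Pool.Agent.Helper47K9.UD
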