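import Mathlib
import Pool.Agent.Helper47K9.UD.Lim

set_option autoImplicit false

open Filter Topology

namespace Pool.Agent.Helper47K9.UD

open Pool.Agent.H413R3 Pool.Agent.H413R3.KG
open GP (cnt cnt_mono cnt_eq_sum)

/-- the ends of the blocks -/
def Nb : ℕ → ℕ
  | 0 => 2
  | i + 1 => Nb i ^ 4

lemma Nb_ge (i : ℕ) : i + 2 ≤ Nb i := by
  induction i with
  | zero => simp [Nb]
  | succ i ih =>
    have h1 : Nb i + 1 ≤ Nb i ^ 4 := by
      have : 2 ≤ Nb i := by omega
      nlinarith [pow_le_pow_left₀ (by omega : 0 ≤ 2) this 3, pow_succ (Nb i) 3]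
    show i + 1 + 2 ≤ Nb i ^ 4
    omega

lemma Nb_lt (i : ℕ) : Nb i < Nb (i + 1) := by
  show Nb i < Nb i ^ 4
  have : 2 ≤ Nb i := by have := Nb_ge i; omega
  nlinarith [pow_le_pow_left₀ (by omega : 0 ≤ 2) this 3, pow_succ (Nb i) 3]

lemma Nb_mono : StrictMono Nb := strictMono_nat_of_lt_succ Nb_lt

theorem exists_attain {k : ℕ} (hk : 3 ≤ k) {α : ℝ}
    (hα : Tendsto (fun N : ℕ => (mx k Set.univ N : ℝ) / N) atTop (𝓝 α)) :
    ∃ A : Set ℕ, (∀ n ∈ A, 1 ≤ n) ∧ GPF k A ∧ ud A = α := by
  classical
  have hO : ∀ m, ∃ T : Finset ℕ, (∀ t ∈ T, 1 ≤ t ∧ t ≤ m ∧ t ∈ (Set.univ : Set ℕ)) ∧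
      GPF k (T : Set ℕ) ∧ T.card = mx k Set.univ m := fun m => mx_mem hk _ m
  choose O hO1 hO2 hO3 using hO
  set A : Set ℕ := {n | ∃ i, n ∈ O (Nb (i + 1)) ∧ Nb i ^ 3 < n} with hA
  have hpos : ∀ n ∈ A, 1 ≤ n := by
    rintro n ⟨i, h1, h2⟩
    omega
  have hgpf : GPF k A := by
    rw [← hasGP_iff hk hpos]
    rintro ⟨a, r, ha, hr, hall⟩
    have hex : ∀ i, ∃ n : ℕ, i < k → n ∈ A ∧ (n : ℝ) = a * r ^ i := by
      intro i
      by_cases hi : i < k
      · obtain ⟨n, hn, he⟩ := hall i hi
        exact ⟨n, fun _ => ⟨hn, he⟩⟩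
      · exact ⟨0, fun h => absurd h hi⟩
    choose t ht using hex
    have htle : ∀ i j, i ≤ j → j < k → t i ≤ t j := by
      intro i j hij hj
      have h1 := (ht i (by omega)).2
      have h2 := (ht j hj).2
      have h3 : (t i : ℝ) ≤ t j := by
        rw [h1, h2]
        exact mul_le_mul_of_nonneg_left (pow_le_pow_right₀ hr.le hij) ha.le
      exact_mod_cast h3
    obtain ⟨b, hb1, hb2⟩ := (ht (k - 1) (by omega)).1
    set M := Nb b with hM
    have hM2 : 2 ≤ M := by have := Nb_ge b; omega
    have hM4 : t (k - 1) ≤ M ^ 4 := (hO1 _ _ hb1).2.1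
    -- elements of `A` in `(M^3, M^4]` lie in the block, the other ones are at most `M`
    have hblock : ∀ i < k, (t i ∈ O (Nb (b + 1)) ∧ M ^ 3 < t i) ∨ t i ≤ M := by
      intro i hi
      obtain ⟨c, hc1, hc2⟩ := (ht i hi).1
      have hc3 : t i ≤ Nb (c + 1) := (hO1 _ _ hc1).2.1
      have hti : t i ≤ M ^ 4 := (htle i (k - 1) (by omega) (by omega)).trans hM4
      rcases lt_trichotomy c b with h | h | h
      · right
        exact hc3.trans (Nb_mono.monotone (by omega : c + 1 ≤ b))
      · left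
        subst h
        exact ⟨hc1, hc2⟩
      · exfalso
        have h1 : Nb (b + 1) ≤ Nb c := Nb_mono.monotone (by omega)
        have h2 : Nb (b + 1) = M ^ 4 := rfl
        have h3 : Nb c ≤ Nb c ^ 3 := Nat.le_self_pow (by norm_num) _
        omega
    by_cases h0 : M ^ 3 < t 0
    · -- all in one block
      have hall' : ∀ i < k, t i ∈ O (Nb (b + 1)) := by
        intro i hi
        rcases hblock i hi with h | h
        · exact h.1
        · exfalso
          have h1 := htle 0 i (by omega) hi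
          have h3 : M ≤ M ^ 3 := Nat.le_self_pow (by norm_num) _
          omega
      have := (hasGP_iff hk (A := (O (Nb (b + 1)) : Set ℕ)) (fun n hn =>
        (hO1 _ _ (Finset.mem_coe.1 hn)).1)).2 (hO2 _)
      exact this ⟨a, r, ha, hr, fun i hi => ⟨t i, Finset.mem_coe.2 (hall' i hi), (ht i hi).2⟩⟩
    · have hall' : ∀ i < k, t i ≤ M := by
        intro i
        induction i with
        | zero =>
          intro hi
          rcases hblock 0 hi with h | h
          · exact absurd h.2 h0
          · exact h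
        | succ j ih =>
          intro hj
          have hj' := ih (by omega)
          rcases hblock (j + 1) hj with h | h
          · exfalso
            have e1 := (ht (j + 1) hj).2
            have e0 := (ht j (by omega)).2
            have h1 : (M : ℝ) ^ 3 < t (j + 1) := by exact_mod_cast h.2
            have h2 : (t j : ℝ) ≤ M := by exact_mod_cast hj'
            have hMr : (2 : ℝ) ≤ M := by exact_mod_cast hM2
            have e2 : (t (j + 1) : ℝ) = t j * r := by rw [e1, e0, pow_succ]; ring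
            have hrM : (M : ℝ) ^ 2 < r := by
              by_contra hno
              push Not at hno
              have h5 : (t j : ℝ) * r ≤ M * M ^ 2 :=
                mul_le_mul h2 hno (by linarith) (by linarith)
              nlinarith
            rcases Nat.eq_zero_or_pos j with hj0 | hj0
            · subst hj0
              have e3 := (ht 2 (by omega)).2
              have h3 : t 2 ≤ M ^ 4 := (htle 2 (k - 1) (by omega) (by omega)).trans hM4
              have h4 : (t 2 : ℝ) ≤ (M : ℝ) ^ 4 := by exact_mod_cast h3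
              have e4 : (t 2 : ℝ) = t (0 + 1) * r := by rw [e3, e1]; ring
              have h5 : (M : ℝ) ^ 3 * M ^ 2 < t (0 + 1) * r := by
                apply mul_lt_mul h1 hrM.le (by positivity) (by positivity)
              have h6 : (M : ℝ) ^ 4 ≤ M ^ 3 * M ^ 2 := by
                have : (M : ℝ) ^ 3 * M ^ 2 = M ^ 4 * M := by ring
                rw [this]
                nlinarith [pow_pos (by linarith : (0 : ℝ) < M) 4]
              linarith
            · have e5 := (ht (j - 1) (by omega)).2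
              have e6 : (t j : ℝ) = t (j - 1) * r := by
                rw [e0, e5, mul_assoc, ← pow_succ]
                congr 3
                omega
              have h7 : (1 : ℝ) ≤ t (j - 1) := by
                exact_mod_cast hpos _ (ht (j - 1) (by omega)).1
              nlinarith
          · exact h
      have h1 := hall' (k - 1) (by omega)
      have h3 : M ≤ M ^ 3 := Nat.le_self_pow (by norm_num) _
      omega
  refine ⟨A, hpos, hgpf, le_antisymm (ud_le_of_gpf hα hgpf) ?_⟩
  -- lower bound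
  have hcnt : ∀ i, mx k Set.univ (Nb (i + 1)) ≤ cnt A (Nb (i + 1)) + Nb i ^ 3 := by
    intro i
    rw [← hO3]
    have hsub : (O (Nb (i + 1)) : Set ℕ) ⊆ (A ∩ Set.Icc 1 (Nb (i + 1))) ∪
        (Finset.Icc 1 (Nb i ^ 3) : Finset ℕ) := by
      intro n hn
      have h1 := hO1 _ _ (Finset.mem_coe.1 hn)
      by_cases h : Nb i ^ 3 < n
      · left
        exact ⟨⟨i, Finset.mem_coe.1 hn, h⟩, h1.1, h1.2.1⟩
      · right
        rw [Finset.coe_Icc]
        exact ⟨h1.1, by omega⟩
    have h1 := Set.ncard_le_ncard hsub (((Set.finite_Icc 1 _).inter_of_right _).union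
      (Finset.finite_toSet _))
    rw [Set.ncard_coe_finset] at h1
    refine h1.trans ((Set.ncard_union_le _ _).trans ?_)
    rw [Set.ncard_coe_finset, Nat.card_Icc, Nat.add_sub_cancel]
    exact le_rfl
  have hNt : Tendsto (fun i => Nb (i + 1)) atTop atTop :=
    (Nb_mono.tendsto_atTop).comp (tendsto_add_atTop_nat 1)
  have hsub := hα.comp hNt
  have hinv : Tendsto (fun i : ℕ => 1 / (Nb i : ℝ)) atTop (𝓝 0) :=
    (tendsto_one_div_atTop_nhds_zero_nat (𝕜 := ℝ)).comp Nb_mono.tendsto_atTop
  have hlow := hsub.sub hinv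
  rw [sub_zero] at hlow
  refine le_of_forall_lt fun c hc => ?_
  have hc2 : ∃ e, c < e ∧ e < α := exists_between hc
  obtain ⟨e, he1, he2⟩ := hc2
  refine lt_of_lt_of_le he1 ?_
  apply le_limsup_of_frequently_le _ (frac_bdd A)
  rw [frequently_atTop]
  intro m
  have hev := hlow.eventually (eventually_gt_nhds he2)
  obtain ⟨i, hi1, hi2⟩ := (hev.and (hNt.eventually (eventually_ge_atTop m))).exists
  refine ⟨Nb (i + 1), hi2, ?_⟩
  refine hi1.le.trans ?_
  have hNpos : (0 : ℝ) < Nb i := by exact_mod_cast (by have := Nb_ge i; omega : 0 < Nb i)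
  have h1 : (mx k Set.univ (Nb (i + 1)) : ℝ) ≤ cnt A (Nb (i + 1)) + (Nb i : ℝ) ^ 3 := by
    exact_mod_cast hcnt i
  have h2 : ((Nb (i + 1) : ℕ) : ℝ) = (Nb i : ℝ) ^ 4 := by
    show ((Nb i ^ 4 : ℕ) : ℝ) = _
    push_cast
    rfl
  simp only [Function.comp_apply]
  rw [h2, sub_le_iff_le_add, div_le_iff₀ (by positivity)]
  have h3 : ((cnt A (Nb (i + 1)) : ℝ) / (Nb i : ℝ) ^ 4 + 1 / (Nb i : ℝ)) * (Nb i : ℝ) ^ 4 =
      cnt A (Nb (i + 1)) + (Nb i : ℝ) ^ 3 := by
    field_simp
  rw [h3]
  exact h1

end Pool.Agent.Helper47K9.UD
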