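import Mathlib
import Pool.Agent.Helper47K9.UD.Lim

set_option autoImplicit false

open Filter Topology

namespace Pool.Agent.Helper47K9.UD

open Pool.Agent.H413R3 Pool.Agent.H413R3.KG
open GP (cnt cnt_mono cnt_eq_sum)

/-- `f 0, ..., f (k-1)` is a geometric progression -/
def Rel (k : ℕ) (f : ℕ → ℕ) : Prop := ∀ i, i + 2 < k → f (i + 1) ^ 2 = f i * f (i + 2)

lemma rel_incr {k : ℕ} {f : ℕ → ℕ} (hpos : ∀ i < k, 1 ≤ f i) (hr : Rel k f) (h01 : f 0 < f 1) :
    ∀ i, i + 1 < k → f i < f (i + 1) := by
  intro i
  induction i with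
  | zero => intro _; exact h01
  | succ i ih =>
    intro hi
    have h1 := ih (by omega)
    have h2 := hr i (by omega)
    have h3 := hpos i (by omega)
    by_contra hno
    push Not at hno
    have h4 : f (i + 2) ≤ f (i + 1) := hno
    have h5 : f i * f (i + 2) < f (i + 1) * f (i + 1) := by
      calc f i * f (i + 2) ≤ f i * f (i + 1) := Nat.mul_le_mul_left _ h4
        _ < f (i + 1) * f (i + 1) := Nat.mul_lt_mul_of_pos_right h1 (by omega)
    rw [← h2, sq] at h5
    exact lt_irrefl _ h5

lemma rel_incr_le {k : ℕ} {f : ℕ → ℕ} (hpos : ∀ i < k, 1 ≤ f i) (hr : Rel k f) (h01 : f 0 < f 1) :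
    ∀ i j, i ≤ j → j < k → f i ≤ f j := by
  intro i j hij
  induction j, hij using Nat.le_induction with
  | base => intro _; exact le_rfl
  | succ j hij ih =>
    intro hj
    exact (ih (by omega)).trans (rel_incr hpos hr h01 j hj).le

/-- it suffices to exclude increasing progressions -/
lemma gpf_of_incr {k : ℕ} (hk : 3 ≤ k) {A : Set ℕ} (hA : ∀ n ∈ A, 1 ≤ n)
    (h : ∀ f : ℕ → ℕ, (∀ i < k, f i ∈ A) → Rel k f → f 0 < f 1 → False) : GPF k A := by
  intro f hf hr
  by_contra hne
  rcases lt_or_gt_of_ne hne with hlt | hgt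
  · exact h f hf hr hlt
  · have hpos : ∀ i < k, 1 ≤ f i := fun i hi => hA _ (hf i hi)
    -- the reversed progression
    have hdec : ∀ i, i + 1 < k → f (i + 1) < f i := by
      intro i
      induction i with
      | zero => intro _; exact hgt
      | succ i ih =>
        intro hi
        have h1 := ih (by omega)
        have h2 := hr i (by omega)
        by_contra hno
        push Not at hno
        have h4 : f (i + 1) ≤ f (i + 2) := hno
        have h6 := hpos (i + 1) (by omega)
        have h5 : f (i + 1) * f (i + 1) < f i * f (i + 2) := by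
          calc f (i + 1) * f (i + 1) < f i * f (i + 1) := Nat.mul_lt_mul_of_pos_right h1 (by omega)
            _ ≤ f i * f (i + 2) := Nat.mul_le_mul_left _ h4
        rw [← h2, sq] at h5
        exact lt_irrefl _ h5
    refine h (fun i => f (k - 1 - i)) (fun i hi => hf _ (by omega)) ?_ ?_
    · intro i hi
      have := hr (k - 1 - (i + 2)) (by omega)
      have e1 : k - 1 - (i + 2) + 1 = k - 1 - (i + 1) := by omega
      have e2 : k - 1 - (i + 2) + 2 = k - 1 - i := by omega
      rw [e1, e2] at this
      show f (k - 1 - (i + 1)) ^ 2 = f (k - 1 - i) * f (k - 1 - (i + 2))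
      rw [this, mul_comm]
    · show f (k - 1 - 0) < f (k - 1 - 1)
      have := hdec (k - 2) (by omega)
      have e1 : k - 2 + 1 = k - 1 - 0 := by omega
      have e2 : k - 2 = k - 1 - 1 := by omega
      rw [e1, e2] at this
      exact this

/-- exponents of a progression form arithmetic progressions -/
lemma rel_fac {k : ℕ} {f : ℕ → ℕ} (hpos : ∀ i < k, 1 ≤ f i) (hr : Rel k f) (p : ℕ) :
    ∀ i < k, ((f i).factorization p : ℤ) =
      (f 0).factorization p + i * (((f 1).factorization p : ℤ) - (f 0).factorization p) := by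
  intro i
  induction i using Nat.strong_induction_on with
  | _ i ih =>
    intro hi
    rcases i with _ | _ | i
    · simp
    · simp
    · have e := fac_rel (hpos i (by omega)) (hpos (i + 2) hi) (hr i (by omega)) p
      have e' : 2 * ((f (i + 1)).factorization p : ℤ) =
        (f i).factorization p + (f (i + 2)).factorization p := by exact_mod_cast e
      have i1 := ih (i + 1) (by omega) (by omega)
      have i0 := ih i (by omega) (by omega)
      push_cast at i1 i0 ⊢
      have e2 : ((f (i + 1 + 1)).factorization p : ℤ) = ((f (i + 2)).factorization p : ℤ) := rfl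
      rw [e2]
      linarith

/-- divisibility from comparison of exponents -/
lemma dvd_of_fac {a b : ℕ} (ha : 1 ≤ a) (hb : 1 ≤ b)
    (h : ∀ p, a.factorization p ≤ b.factorization p) : a ∣ b :=
  (Nat.factorization_le_iff_dvd (by omega) (by omega)).1 h

lemma fac_mul_prime {q a : ℕ} (hq : q.Prime) (ha : 1 ≤ a) (p : ℕ) :
    (q * a).factorization p = (if p = q then 1 else 0) + a.factorization p := by
  rw [Nat.factorization_mul hq.ne_zero (by omega), Finsupp.add_apply, hq.factorization,
    Finsupp.single_apply]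
  simp only [eq_comm]

/-- if the last exponents are small then the ratio is an integer divisor -/
lemma last_small {k : ℕ} (hk : 3 ≤ k) {f : ℕ → ℕ} (hpos : ∀ i < k, 1 ≤ f i) (hr : Rel k f)
    {q : ℕ} (hq : q.Prime) (h1 : ∀ p, p ≠ q → (f (k - 1)).factorization p ≤ k - 2)
    (h2 : (f (k - 1)).factorization q < 2 * (k - 1)) : f 1 ∣ q * f 0 := by
  have p0 := hpos 0 (by omega)
  have p1 := hpos 1 (by omega)
  apply dvd_of_fac p1 (Nat.mul_pos hq.pos p0)
  intro p
  rw [fac_mul_prime hq p0]
  have h := rel_fac hpos hr p (k - 1) (by omega)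
  have hk1 : ((k - 1 : ℕ) : ℤ) = (k : ℤ) - 1 := by omega
  rw [hk1] at h
  have hk3 : (3 : ℤ) ≤ k := by exact_mod_cast hk
  have n0 : (0 : ℤ) ≤ (f 0).factorization p := by positivity
  by_cases hpq : p = q
  · subst hpq
    rw [if_pos rfl]
    by_contra hlt
    push Not at hlt
    have h3 : (2 : ℤ) ≤ ((f 1).factorization p : ℤ) - (f 0).factorization p := by omega
    have h4 : ((f (k - 1)).factorization p : ℤ) < 2 * ((k : ℤ) - 1) := by omega
    nlinarith
  · rw [if_neg hpq, zero_add]
    by_contra hlt
    push Not at hlt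
    have h3 : (1 : ℤ) ≤ ((f 1).factorization p : ℤ) - (f 0).factorization p := by omega
    have h4 : ((f (k - 1)).factorization p : ℤ) ≤ (k : ℤ) - 2 := by have := h1 p hpq; omega
    nlinarith

/-- powers of the ratio -/
lemma rel_scale {k : ℕ} {f : ℕ → ℕ} (hpos : ∀ i < k, 1 ≤ f i) (hr : Rel k f)
    {b c : ℕ} (hb : 0 < b) (h : b * f 1 = c * f 0) :
    ∀ i < k, b ^ i * f i = c ^ i * f 0 := by
  intro i
  induction i using Nat.strong_induction_on with
  | _ i ih =>
    intro hi
    rcases i with _ | _ | i
    · simp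
    · simpa using h
    · have e := hr i (by omega)
      have i1 := ih (i + 1) (by omega) (by omega)
      have i0 := ih i (by omega) (by omega)
      have hfi := hpos i (by omega)
      have hbi : 0 < b ^ i := pow_pos hb i
      have key : (b ^ i * f i) * (b ^ (i + 2) * f (i + 2)) =
          (b ^ i * f i) * (c ^ (i + 2) * f 0) := by
        calc (b ^ i * f i) * (b ^ (i + 2) * f (i + 2))
            = (b ^ (i + 1)) ^ 2 * (f i * f (i + 2)) := by ring
          _ = (b ^ (i + 1) * f (i + 1)) ^ 2 := by rw [← e]; ring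
          _ = (c ^ (i + 1) * f 0) ^ 2 := by rw [i1]
          _ = (c ^ i * f 0) * (c ^ (i + 2) * f 0) := by ring
          _ = (b ^ i * f i) * (c ^ (i + 2) * f 0) := by rw [i0]
      exact Nat.eq_of_mul_eq_mul_left (Nat.mul_pos hbi hfi) key

/-- `F` is extremal on all initial segments up to `m` -/
def Perfect (k m : ℕ) (F : Set ℕ) : Prop := ∀ n, 1 ≤ n → n ≤ m → mx k Set.univ n ≤ cnt F n

/-- in a perfect set every element that can be added is present -/
lemma perfect_mem {k m : ℕ} {F : Set ℕ} (hP : Perfect k m F) {n : ℕ} (hn1 : 1 ≤ n) (hnm : n ≤ m)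
    (hadd : GPF k ({s | s ∈ F ∧ 1 ≤ s ∧ s < n} ∪ {n})) : n ∈ F := by
  by_contra hno
  obtain ⟨m', rfl⟩ : ∃ m', n = m' + 1 := ⟨n - 1, by omega⟩
  have h1 := hP (m' + 1) hn1 hnm
  rw [cnt_succ_not_mem hno] at h1
  have h2 := cnt_le_mx hadd (Set.subset_univ _) (m' + 1)
  have h3 : cnt ({s | s ∈ F ∧ 1 ≤ s ∧ s < m' + 1} ∪ {m' + 1}) (m' + 1) =
      cnt ({s | s ∈ F ∧ 1 ≤ s ∧ s < m' + 1} ∪ {m' + 1}) m' + 1 :=
    cnt_succ_mem (Or.inr rfl)
  have h4 : cnt F m' ≤ cnt ({s | s ∈ F ∧ 1 ≤ s ∧ s < m' + 1} ∪ {m' + 1}) m' := by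
    unfold cnt
    apply Set.ncard_le_ncard _ ((Set.finite_Icc 1 _).inter_of_right _)
    rintro s ⟨hs, h5, h6⟩
    exact ⟨Or.inl ⟨hs, h5, by omega⟩, h5, h6⟩
  omega

/-- numbers whose exponents are at most `k - 2` are present -/
lemma perfect_free {k m : ℕ} (hk : 3 ≤ k) {F : Set ℕ} (hF : GPF k F) (hP : Perfect k m F)
    {n : ℕ} (hn1 : 1 ≤ n) (hnm : n ≤ m) (hfree : ∀ p, n.factorization p ≤ k - 2) : n ∈ F := by
  apply perfect_mem hP hn1 hnm
  apply gpf_of_incr hk
  · rintro s (h | h)
    · exact h.2.1
    · rw [Set.mem_singleton_iff.1 h]; exact hn1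
  · intro f hf hr h01
    have hpos : ∀ i < k, 1 ≤ f i := by
      intro i hi
      rcases hf i hi with h | h
      · exact h.2.1
      · rw [Set.mem_singleton_iff.1 h]; exact hn1
    have hle : ∀ i < k, f i ≤ n := by
      intro i hi
      rcases hf i hi with h | h
      · exact h.2.2.le
      · rw [Set.mem_singleton_iff.1 h]
    by_cases hlast : f (k - 1) = n
    · have h1 : f (k - 1) ∣ f 0 := by
        apply dvd_of_fac (hpos _ (by omega)) (hpos _ (by omega))
        intro p
        have h := rel_fac hpos hr p (k - 1) (by omega)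
        have hk1 : ((k - 1 : ℕ) : ℤ) = (k : ℤ) - 1 := by omega
        rw [hk1] at h
        have hk3 : (3 : ℤ) ≤ k := by exact_mod_cast hk
        have n0 : (0 : ℤ) ≤ (f 0).factorization p := by positivity
        have h4 : ((f (k - 1)).factorization p : ℤ) ≤ (k : ℤ) - 2 := by
          rw [hlast]; have := hfree p; omega
        by_contra hlt
        push Not at hlt
        have h5 : ((f 0).factorization p : ℤ) < (f (k - 1)).factorization p := by exact_mod_cast hlt
        have h6 : 0 < ((f 1).factorization p : ℤ) - (f 0).factorization p := by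
          by_contra h7
          push Not at h7
          nlinarith
        nlinarith
      have h2 := Nat.le_of_dvd (by have := hpos 0 (by omega); omega) h1
      have h3 := rel_incr_le hpos hr h01 1 (k - 1) (by omega) (by omega)
      omega
    · have hall : ∀ i < k, f i ∈ F := by
        intro i hi
        rcases hf i hi with h | h
        · exact h.1
        · exfalso
          have h3 := rel_incr_le hpos hr h01 i (k - 1) (by omega) (by omega)
          have h4 := hle (k - 1) (by omega)
          have h5 := Set.mem_singleton_iff.1 h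
          omega
      exact absurd (hF f hall hr) h01.ne

end Pool.Agent.Helper47K9.UD
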