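import Mathlib
import Pool.Agent.Helper47K9.UD.Comb

set_option autoImplicit false

open Filter Topology

namespace Pool.Agent.Helper47K9.UD

open Pool.Agent.H413R3 Pool.Agent.H413R3.KG
open GP (cnt cnt_mono cnt_eq_sum)

lemma fac32 (a b p : ℕ) : (3 ^ a * 2 ^ b).factorization p =
    (if p = 3 then a else 0) + (if p = 2 then b else 0) := by
  rw [Nat.factorization_mul (by positivity) (by positivity), Finsupp.add_apply,
    Nat.prime_three.factorization_pow, Nat.prime_two.factorization_pow, Finsupp.single_apply,
    Finsupp.single_apply]
  simp only [eq_comm]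

lemma fac3 (a p : ℕ) : (3 ^ a).factorization p = if p = 3 then a else 0 := by
  have := fac32 a 0 p
  simpa using this

lemma fac2 (b p : ℕ) : (2 ^ b).factorization p = if p = 2 then b else 0 := by
  have := fac32 0 b p
  simpa using this

/-- an increasing progression with ratio dividing `q` -/
lemma ratio_two {k : ℕ} (hk : 3 ≤ k) {f : ℕ → ℕ} (hpos : ∀ i < k, 1 ≤ f i) (hr : Rel k f)
    (h01 : f 0 < f 1) (hd : f 1 ∣ 2 * f 0) : ∀ i < k, f i = 2 ^ i * f 0 := by
  have h1 : f 1 = 2 * f 0 := by
    obtain ⟨c, hc⟩ := hd
    have p0 := hpos 0 (by omega)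
    rcases Nat.lt_or_ge c 2 with h | h
    · interval_cases c
      · omega
      · omega
    · exfalso
      have : f 1 * 2 ≤ f 1 * c := Nat.mul_le_mul_left _ h
      omega
  intro i hi
  have := rel_scale hpos hr one_pos (c := 2) (by rw [one_mul]; exact h1) i hi
  simpa using this

lemma ratio_three {k : ℕ} (hk : 3 ≤ k) {f : ℕ → ℕ} (hpos : ∀ i < k, 1 ≤ f i) (hr : Rel k f)
    (h01 : f 0 < f 1) (hd : f 1 ∣ 3 * f 0) :
    (∀ i < k, f i = 3 ^ i * f 0) ∨ ∀ i < k, 2 ^ i * f i = 3 ^ i * f 0 := by
  obtain ⟨c, hc⟩ := hd
  have p0 := hpos 0 (by omega)
  have hc3 : c < 3 := by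
    by_contra h
    push Not at h
    have : f 1 * 3 ≤ f 1 * c := Nat.mul_le_mul_left _ h
    omega
  interval_cases c
  · omega
  · left
    intro i hi
    have := rel_scale hpos hr one_pos (c := 3) (by rw [one_mul]; omega) i hi
    simpa using this
  · right
    intro i hi
    exact rel_scale hpos hr (b := 2) (by norm_num) (c := 3) (by omega) i hi

theorem no_perfect {k : ℕ} (hk : 3 ≤ k) : ∃ m : ℕ, 1 ≤ m ∧ ∀ F : Set ℕ, (∀ n ∈ F, 1 ≤ n) →
    GPF k F → ¬ Perfect k m F := by
  classical
  obtain ⟨e, rfl⟩ : ∃ e, k = e + 1 := ⟨k - 1, by omega⟩
  have he : 2 ≤ e := by omega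
  have hex : ∃ j, 3 ^ e ≤ 3 ^ j * 2 ^ e := ⟨e, Nat.le_mul_of_pos_right _ (by positivity)⟩
  set j := Nat.find hex with hj
  have hj1 : 3 ^ e ≤ 3 ^ j * 2 ^ e := Nat.find_spec hex
  have hjmin : ∀ i < j, 3 ^ i * 2 ^ e < 3 ^ e := fun i hi => not_le.1 (Nat.find_min hex hi)
  have hj0 : 1 ≤ j := by
    by_contra h
    have h0 : j = 0 := by omega
    rw [h0, pow_zero, one_mul] at hj1
    have : 2 ^ e < 3 ^ e := Nat.pow_lt_pow_left (by norm_num) (by omega)
    omega
  have hje : j ≤ e - 1 := by
    apply Nat.find_min' hex
    have h1 : 3 ^ e = 3 ^ (e - 1) * 3 := by rw [← pow_succ]; congr 1; omega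
    rw [h1]
    apply Nat.mul_le_mul_left
    calc 3 ≤ 2 ^ 2 := by norm_num
      _ ≤ 2 ^ e := Nat.pow_le_pow_right (by norm_num) he
  set m := 3 ^ j * 2 ^ e with hm
  have hm3 : m < 3 ^ (e + 1) := by
    have h1 := hjmin (j - 1) (by omega)
    have h2 : 3 ^ j = 3 ^ (j - 1) * 3 := by rw [← pow_succ]; congr 1; omega
    rw [hm, h2, pow_succ]
    nlinarith
  refine ⟨m, Nat.mul_pos (by positivity) (by positivity), ?_⟩
  intro F hFpos hF hP
  -- membership of small powers
  have hz : ∀ a b, a ≤ e - 1 → b ≤ e - 1 → 3 ^ a * 2 ^ b ≤ m → 3 ^ a * 2 ^ b ∈ F := by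
    intro a b ha hb hle
    apply perfect_free hk hF hP (Nat.mul_pos (by positivity) (by positivity)) hle
    intro p
    rw [fac32]
    by_cases h3 : p = 3
    · subst h3; simp; omega
    · by_cases h2 : p = 2
      · subst h2; simp; omega
      · simp [h3, h2]
  -- `2 ^ e ∉ F`
  have h2e : 2 ^ e ∉ F := by
    intro h
    have := hF (fun i => 2 ^ i) (fun i hi => by
      rcases Nat.lt_or_ge i e with h1 | h1
      · have := hz 0 i (by omega) (by omega) (by
          rw [hm]
          exact Nat.mul_le_mul (Nat.pow_le_pow_right (by norm_num) (by omega))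
            (Nat.pow_le_pow_right (by norm_num) (by omega)))
        simpa using this
      · have : i = e := by omega
        subst this; exact h) (fun i _ => by ring)
    simp at this
  have h3e : 3 ^ e ∉ F := by
    intro h
    have := hF (fun i => 3 ^ i) (fun i hi => by
      rcases Nat.lt_or_ge i e with h1 | h1
      · have := hz i 0 (by omega) (by omega) (by
          rw [pow_zero, mul_one]
          exact (Nat.pow_le_pow_right (by norm_num) (by omega)).trans hj1)
        simpa using this
      · have : i = e := by omega
        subst this; exact h) (fun i _ => by ring)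
    simp at this
  have hmF : m ∉ F := by
    intro h
    have := hF (fun i => 3 ^ j * 2 ^ i) (fun i hi => by
      rcases Nat.lt_or_ge i e with h1 | h1
      · exact hz j i hje (by omega) (by
          rw [hm]
          exact Nat.mul_le_mul_left _ (Nat.pow_le_pow_right (by norm_num) (by omega)))
      · have : i = e := by omega
        subst this; exact h) (fun i _ => by ring)
    have h3 : 0 < 3 ^ j := by positivity
    simp at this
  have hm3e : m ≠ 3 ^ e := by
    intro h
    have h1 : (3 ^ j * 2 ^ e).factorization 2 = (3 ^ e).factorization 2 := by rw [← hm, h]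
    rw [fac32, fac3] at h1
    simp at h1
    omega
  -- the case `k = 4`
  have h64 : e = 3 → 64 ∉ F := by
    intro he3 h
    subst he3
    have h16 : 16 ∈ F := by
      apply perfect_mem hP (by norm_num)
      · refine le_trans ?_ hj1; norm_num
      apply gpf_of_incr hk
      · rintro s (h | h)
        · exact h.2.1
        · rw [Set.mem_singleton_iff.1 h]; norm_num
      · intro f hf hr h01
        have hpos : ∀ i < 3 + 1, 1 ≤ f i := by
          intro i hi
          rcases hf i hi with h | h
          · exact h.2.1
          · rw [Set.mem_singleton_iff.1 h]; norm_num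
        by_cases hlast : f 3 = 16
        · have e16 : (16 : ℕ) = 2 ^ 4 := by norm_num
          have hd := last_small (k := 3 + 1) (by norm_num) hpos hr Nat.prime_two (fun p hp => by
            show (f 3).factorization p ≤ _
            rw [hlast, e16, fac2, if_neg hp]; omega) (by
            show (f 3).factorization 2 < _
            rw [hlast, e16, fac2, if_pos rfl]; norm_num)
          have hs := ratio_two (by norm_num) hpos hr h01 hd
          have h3 := hs 3 (by norm_num)
          have h2 := hs 2 (by norm_num)
          have h8 : f 2 = 8 := by omega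
          rcases hf 2 (by norm_num) with h | h
          · rw [h8] at h
            apply h2e
            norm_num
            exact h.1
          · have := Set.mem_singleton_iff.1 h
            omega
        · have hall : ∀ i < 3 + 1, f i ∈ F := by
            intro i hi
            rcases hf i hi with h | h
            · exact h.1
            · exfalso
              have h3 := rel_incr_le hpos hr h01 i 3 (by omega) (by omega)
              have h5 := Set.mem_singleton_iff.1 h
              rcases hf 3 (by norm_num) with h4 | h4
              · have := h4.2.2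
                omega
              · exact hlast (Set.mem_singleton_iff.1 h4)
          exact absurd (hF f hall hr) h01.ne
    have h1F : 1 ∈ F := by
      have := hz 0 0 (by omega) (by omega) (by
        rw [pow_zero, pow_zero, one_mul, hm]
        exact Nat.mul_pos (by positivity) (by positivity))
      simpa using this
    have h4F : 4 ∈ F := by
      have := hz 0 2 (by omega) (by omega) (by
        refine le_trans ?_ hj1; norm_num)
      simpa using this
    have := hF (fun i => 4 ^ i) (fun i hi => by
      interval_cases i
      · simpa using h1F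
      · simpa using h4F
      · exact h16
      · exact h) (fun i _ => by ring)
    simp at this
  -- the better set
  set H : Set ℕ := {s | (s ∈ F ∧ s ≤ m ∧ s ≠ 3 ^ j) ∨ s = 3 ^ e ∨ s = m} with hH
  have hHpos : ∀ n ∈ H, 1 ≤ n := by
    rintro n (h | h | h)
    · exact hFpos n h.1
    · rw [h]; exact Nat.one_le_pow _ _ (by norm_num)
    · rw [h]; exact Nat.mul_pos (by positivity) (by positivity)
  have hHm : ∀ n ∈ H, n ≤ m := by
    rintro n (h | h | h)
    · exact h.2.1
    · rw [h]; exact hj1
    · rw [h]
  have hzH : 3 ^ j ∉ H := by
    rintro (h | h | h)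
    · exact h.2.2 rfl
    · have := Nat.pow_right_injective (le_refl 2 |>.trans (by norm_num : 2 ≤ 3)) h
      omega
    · have h1 : 3 ^ j * 1 = 3 ^ j * 2 ^ e := by rw [mul_one]; exact h
      have h2 := Nat.eq_of_mul_eq_mul_left (by positivity) h1
      have h3 : 1 < 2 ^ e := Nat.one_lt_two_pow (by omega)
      omega
  have h2H : 2 ^ e ∉ H := by
    rintro (h | h | h)
    · exact h2e h.1
    · have : 2 ^ e < 3 ^ e := Nat.pow_lt_pow_left (by norm_num) (by omega)
      omega
    · have h1 : 1 * 2 ^ e = 3 ^ j * 2 ^ e := by rw [one_mul]; exact h
      have h2 := Nat.eq_of_mul_eq_mul_right (by positivity) h1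
      have h3 : 1 < 3 ^ j := Nat.one_lt_pow (by omega) (by norm_num)
      omega
  have hHgpf : GPF (e + 1) H := by
    apply gpf_of_incr hk hHpos
    intro f hf hr h01
    have hpos : ∀ i < e + 1, 1 ≤ f i := fun i hi => hHpos _ (hf i hi)
    have hlem : ∀ i < e + 1, f i ≤ m := fun i hi => hHm _ (hf i hi)
    have hmono := rel_incr_le hpos hr h01
    -- the last term is not `m`
    by_cases hlast : f e = m
    · have hd := last_small hk hpos hr Nat.prime_two (fun p hp => by
        show (f e).factorization p ≤ _
        rw [hlast, hm, fac32, if_neg hp]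
        split_ifs <;> omega) (by
        show (f e).factorization 2 < _
        rw [hlast, hm, fac32]
        simp
        omega)
      have hs := ratio_two hk hpos hr h01 hd e (by omega)
      rw [hlast, hm, mul_comm] at hs
      have h0 : 3 ^ j = f 0 := Nat.eq_of_mul_eq_mul_left (by positivity) hs
      exact hzH (h0 ▸ hf 0 (by omega))
    -- so some term is `3 ^ e`
    have hexi : ∃ i < e + 1, f i = 3 ^ e := by
      by_contra hno
      push Not at hno
      have hall : ∀ i < e + 1, f i ∈ F := by
        intro i hi
        rcases hf i hi with h | h | h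
        · exact h.1
        · exact absurd h (hno i hi)
        · exfalso
          have h1 := hmono i e (by omega) (by omega)
          have h2 := hlem e (by omega)
          omega
      exact absurd (hF f hall hr) h01.ne
    obtain ⟨i, hi, hfi⟩ := hexi
    rcases Nat.eq_zero_or_pos i with h0 | h0
    · -- first term
      subst h0
      -- `f 0 ∣ 3 * f 1`
      have hd : f 0 ∣ 3 * f 1 := by
        apply dvd_of_fac (hpos 0 (by omega)) (Nat.mul_pos (by norm_num) (hpos 1 (by omega)))
        intro p
        rw [fac_mul_prime Nat.prime_three (hpos 1 (by omega)), hfi, fac3]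
        by_cases hp : p = 3
        · subst hp
          rw [if_pos rfl, if_pos rfl]
          have h := rel_fac hpos hr 3 e (by omega)
          rw [hfi, fac3, if_pos rfl] at h
          have n0 : (0 : ℤ) ≤ (f e).factorization 3 := by positivity
          have he' : (2 : ℤ) ≤ e := by exact_mod_cast he
          by_contra hlt
          push Not at hlt
          have h5 : ((f 1).factorization 3 : ℤ) - e ≤ -2 := by omega
          nlinarith
        · rw [if_neg hp]; exact Nat.zero_le _
      obtain ⟨c, hc⟩ := hd
      have hc4 : 4 ≤ c := by
        by_contra hlt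
        have : c ≤ 3 := by omega
        have : f 0 * c ≤ f 0 * 3 := Nat.mul_le_mul_left _ this
        omega
      have hs := rel_scale hpos hr (b := 3) (by norm_num) (c := c) (by rw [hc, mul_comm]) e (by omega)
      rw [hfi, mul_comm] at hs
      have hfe : f e = c ^ e := Nat.eq_of_mul_eq_mul_right (by positivity) hs
      have hge : 4 ^ e ≤ f e := by rw [hfe]; exact Nat.pow_le_pow_left hc4 e
      have hlt : 4 ^ e < 3 ^ (e + 1) := lt_of_le_of_lt (hge.trans (hlem e (by omega))) hm3
      -- so `e ≤ 3`
      have he3 : e ≤ 3 := by
        by_contra h4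
        push Not at h4
        have : ∀ x, 4 ≤ x → 3 ^ (x + 1) < 4 ^ x := by
          intro x hx
          induction x, hx using Nat.le_induction with
          | base => norm_num
          | succ x _ ih =>
            rw [pow_succ 3 (x + 1), pow_succ 4 x]
            omega
        have := this e h4
        omega
      rcases Nat.lt_or_ge e 3 with h3 | h3
      · -- `e = 2`, `m = 12`
        have he2 : e = 2 := by omega
        have hj' : j = 1 := by omega
        have hm12 : m = 12 := by rw [hm, he2, hj']; norm_num
        have h16 : 16 ≤ f e := by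
          refine le_trans ?_ hge
          rw [he2]; norm_num
        have := hlem e (by omega)
        omega
      · have he3' : e = 3 := by omega
        have hj' : j = 2 := by
          have h1 : j ≤ 2 := by omega
          by_contra hne
          have : j = 1 := by omega
          rw [hm, this, he3'] at hj1
          norm_num at hj1
        have hm72 : m = 72 := by rw [hm, he3', hj']; norm_num
        have hc5 : c < 5 := by
          by_contra h5
          push Not at h5
          have h1 : 5 ^ e ≤ f e := by rw [hfe]; exact Nat.pow_le_pow_left h5 e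
          rw [he3'] at h1
          have := hlem 3 (by omega)
          norm_num at h1
          omega
        have hc4' : c = 4 := by omega
        have hf64 : f e = 64 := by rw [hfe, hc4', he3']; norm_num
        rcases hf e (by omega) with h | h | h
        · rw [hf64] at h
          exact h64 he3' h.1
        · rw [hf64, he3'] at h; norm_num at h
        · omega
    · rcases Nat.lt_or_ge i e with hie | hie
      · -- middle term: all terms are powers of 3
        have hfac : ∀ p, p ≠ 3 → ∀ l < e + 1, (f l).factorization p = 0 := by
          intro p hp l hl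
          have h1 := rel_fac hpos hr p i hi
          rw [hfi, fac3, if_neg hp] at h1
          have h2 := rel_fac hpos hr p e (by omega)
          have h3 := rel_fac hpos hr p l hl
          have n0 : (0 : ℤ) ≤ (f 0).factorization p := by positivity
          have ne : (0 : ℤ) ≤ (f e).factorization p := by positivity
          have hi0 : (1 : ℤ) ≤ i := by exact_mod_cast h0
          have hie' : (i : ℤ) + 1 ≤ e := by exact_mod_cast hie
          set δ : ℤ := ((f 1).factorization p : ℤ) - (f 0).factorization p with hδ
          have hδ0 : δ = 0 := by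
            push_cast at h1
            rcases lt_trichotomy δ 0 with h | h | h
            · exfalso; nlinarith
            · exact h
            · exfalso; nlinarith
          rw [hδ0, mul_zero, add_zero] at h1 h3
          push_cast at h1
          have : ((f l).factorization p : ℤ) = 0 := by rw [h3, ← h1]
          exact_mod_cast this
        have hpow : ∀ l < e + 1, f l = 3 ^ (f l).factorization 3 := by
          intro l hl
          apply Nat.eq_of_factorization_eq (by have := hpos l hl; omega) (by positivity)
          intro p
          rw [fac3]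
          by_cases hp : p = 3
          · subst hp; rw [if_pos rfl]
          · rw [if_neg hp]; exact hfac p hp l hl
        have hfie : (f i).factorization 3 = e := by rw [hfi, fac3, if_pos rfl]
        have hlt : f i < f (i + 1) := rel_incr hpos hr h01 i (by omega)
        rw [hpow i hi, hpow (i + 1) (by omega)] at hlt
        have h5 := (Nat.pow_lt_pow_iff_right (by norm_num : 1 < 3)).1 hlt
        have h6 : 3 ^ (e + 1) ≤ f (i + 1) := by
          rw [hpow (i + 1) (by omega)]
          exact Nat.pow_le_pow_right (by norm_num) (by omega)
        have := hlem (i + 1) (by omega)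
        omega
      · -- last term
        have hie' : i = e := by omega
        subst hie'
        have hd := last_small hk hpos hr Nat.prime_three (fun p hp => by
          show (f i).factorization p ≤ _
          rw [hfi, fac3, if_neg hp]; omega) (by
          show (f i).factorization 3 < _
          rw [hfi, fac3, if_pos rfl]; omega)
        rcases ratio_three hk hpos hr h01 hd with h | h
        · have h1 := h i (by omega)
          rw [hfi] at h1
          have h2 : 3 ^ i * 1 = 3 ^ i * f 0 := by rw [mul_one]; exact h1
          have h3 : 1 = f 0 := Nat.eq_of_mul_eq_mul_left (by positivity) h2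
          have h4 := h j (by omega)
          rw [← h3, mul_one] at h4
          exact hzH (h4 ▸ hf j (by omega))
        · have h1 := h i (by omega)
          rw [hfi, mul_comm] at h1
          have h3 : 2 ^ i = f 0 := Nat.eq_of_mul_eq_mul_left (by positivity) h1
          exact h2H (h3 ▸ hf 0 (by omega))
  -- counting
  have hcount : cnt F m + 1 ≤ cnt H m := by
    have hfinF : (F ∩ Set.Icc 1 m).Finite := (Set.finite_Icc 1 m).inter_of_right _
    have hfinH : (H ∩ Set.Icc 1 m).Finite := (Set.finite_Icc 1 m).inter_of_right _
    have h1 : insert m (insert (3 ^ e) ((F ∩ Set.Icc 1 m) \ {3 ^ j})) ⊆ H ∩ Set.Icc 1 m := by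
      rintro s (h | h | h)
      · rw [h]
        exact ⟨Or.inr (Or.inr rfl), Nat.mul_pos (by positivity) (by positivity), le_rfl⟩
      · rw [h]
        exact ⟨Or.inr (Or.inl rfl), Nat.one_le_pow _ _ (by norm_num), hj1⟩
      · exact ⟨Or.inl ⟨h.1.1, h.1.2.2, h.2⟩, h.1.2⟩
    have h2 := Set.ncard_le_ncard h1 hfinH
    have hfin1 : ((F ∩ Set.Icc 1 m) \ {3 ^ j}).Finite := hfinF.sdiff
    rw [Set.ncard_insert_of_notMem _ (hfin1.insert _), Set.ncard_insert_of_notMem _ hfin1] at h2
    · have h3 := Set.ncard_le_ncard_sdiff_add_ncard (F ∩ Set.Icc 1 m) {3 ^ j}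
      rw [Set.ncard_singleton] at h3
      unfold cnt
      omega
    · intro h
      exact h3e h.1.1
    · rintro (h | h)
      · exact hm3e h
      · exact hmF h.1.1
  have h1 := cnt_le_mx hHgpf (Set.subset_univ _) m
  have h2 := hP m (Nat.mul_pos (by positivity) (by positivity)) le_rfl
  omega

end Pool.Agent.Helper47K9.UD
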