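import Mathlib
import Pool.Agent.Helper47K9.UD.NoPerf

set_option autoImplicit false

open Filter Topology

namespace Pool.Agent.Helper47K9.UD

open Pool.Agent.H413R3 Pool.Agent.H413R3.KG
open GP (cnt cnt_mono cnt_eq_sum dens_scale)

/-- product over odd numbers -/
lemma odd_prod (n : ℕ) : 1 / (2 * (n : ℝ) + 1) ≤
    (∏ i ∈ Finset.range n, (1 - 1 / (2 * (i : ℝ) + 3))) ^ 2 := by
  induction n with
  | zero => simp
  | succ n ih =>
    rw [Finset.prod_range_succ, mul_pow]
    have h1 : (2 * (n : ℝ) + 1) / (2 * n + 3) ≤ (1 - 1 / (2 * (n : ℝ) + 3)) ^ 2 := by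
      have h3 : (0 : ℝ) < 2 * n + 3 := by positivity
      have h4 : 1 - 1 / (2 * (n : ℝ) + 3) = (2 * n + 2) / (2 * n + 3) := by field_simp; ring
      rw [h4, div_pow, div_le_div_iff₀ h3 (by positivity)]
      nlinarith
    calc 1 / (2 * ((n + 1 : ℕ) : ℝ) + 1) = 1 / (2 * (n : ℝ) + 1) * ((2 * n + 1) / (2 * n + 3)) := by
          push_cast; field_simp; ring
      _ ≤ _ := mul_le_mul ih h1 (by positivity) (by positivity)

/-- `P(K)` is at least of order `1 / sqrt K` -/
lemma P_sq_ge (K : ℕ) : 1 / (4 * ((K : ℝ) + 1)) ≤ P K ^ 2 := by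
  classical
  set n := K / 2 with hn
  set S : Finset ℕ := insert 2 ((Finset.range n).image (fun i => 2 * i + 3)) with hS
  have hsub : Nat.primesBelow K ⊆ S := by
    intro p hp
    rw [Nat.mem_primesBelow] at hp
    rw [hS, Finset.mem_insert, Finset.mem_image]
    rcases hp.2.eq_two_or_odd with h | h
    · left; exact h
    · right
      have h2 := hp.2.two_le
      refine ⟨(p - 3) / 2, Finset.mem_range.2 (by omega), by omega⟩
  have hpos : ∀ q ∈ S, 0 ≤ (1 - (q : ℝ)⁻¹) ∧ (1 - (q : ℝ)⁻¹) ≤ 1 := by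
    intro q hq
    have hq1 : (1 : ℝ) ≤ q := by
      rw [hS, Finset.mem_insert, Finset.mem_image] at hq
      rcases hq with h | ⟨i, _, h⟩
      · rw [h]; norm_num
      · rw [← h]; push_cast; linarith [(Nat.cast_nonneg i : (0 : ℝ) ≤ i)]
    have h1 : (q : ℝ)⁻¹ ≤ 1 := inv_le_one_of_one_le₀ hq1
    have h2 : 0 ≤ (q : ℝ)⁻¹ := by positivity
    constructor <;> linarith
  have hprod : ∏ q ∈ S, (1 - (q : ℝ)⁻¹) ≤ P K := by
    unfold P
    rw [← Finset.prod_sdiff hsub]
    calc _ ≤ 1 * ∏ p ∈ Nat.primesBelow K, (1 - (p : ℝ)⁻¹) := by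
          apply mul_le_mul_of_nonneg_right _ (Finset.prod_nonneg fun q hq => (hpos q (hsub hq)).1)
          exact Finset.prod_le_one (fun q hq => (hpos q (Finset.sdiff_subset hq)).1)
            (fun q hq => (hpos q (Finset.sdiff_subset hq)).2)
      _ = _ := one_mul _
  have h2not : 2 ∉ (Finset.range n).image (fun i => 2 * i + 3) := by
    rw [Finset.mem_image]
    rintro ⟨i, _, h⟩
    omega
  rw [hS, Finset.prod_insert h2not, Finset.prod_image (fun a _ b _ h => by
    have : 2 * a + 3 = 2 * b + 3 := h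
    omega)] at hprod
  have hodd := odd_prod n
  have e1 : ∏ x ∈ Finset.range n, (1 - (((2 * x + 3 : ℕ)) : ℝ)⁻¹) =
      ∏ i ∈ Finset.range n, (1 - 1 / (2 * (i : ℝ) + 3)) := by
    refine Finset.prod_congr rfl fun i _ => ?_
    push_cast
    rw [one_div]
  rw [e1] at hprod
  set O := ∏ i ∈ Finset.range n, (1 - 1 / (2 * (i : ℝ) + 3)) with hO
  have hO0 : 0 ≤ O := by
    apply Finset.prod_nonneg
    intro i _
    have : 1 / (2 * (i : ℝ) + 3) ≤ 1 := by
      rw [div_le_one (by positivity)]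
      linarith [(Nat.cast_nonneg i : (0 : ℝ) ≤ i)]
    linarith
  have h3 : (1 / 2 : ℝ) * O ≤ P K := by
    have : (1 - ((2 : ℕ) : ℝ)⁻¹) = 1 / 2 := by norm_num
    rw [this] at hprod
    exact hprod
  have h4 : ((1 / 2 : ℝ) * O) ^ 2 ≤ P K ^ 2 := pow_le_pow_left₀ (by positivity) h3 2
  refine le_trans ?_ h4
  rw [mul_pow]
  have hn2 : 2 * (n : ℝ) + 1 ≤ K + 1 := by
    have : 2 * n ≤ K := by omega
    have : (2 * (n : ℝ)) ≤ K := by exact_mod_cast this
    linarith
  have h5 : 1 / ((K : ℝ) + 1) ≤ 1 / (2 * (n : ℝ) + 1) :=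
    one_div_le_one_div_of_le (by positivity) hn2
  have h6 : 1 / (4 * ((K : ℝ) + 1)) = (1 / 2) ^ 2 * (1 / ((K : ℝ) + 1)) := by
    field_simp; norm_num
  rw [h6]
  exact mul_le_mul_of_nonneg_left (h5.trans hodd) (by norm_num)

lemma mx_le_of_all {k : ℕ} (hk : 3 ≤ k) {S : Set ℕ} {n : ℕ} (h : ∀ s, 1 ≤ s → s ≤ n → s ∈ S) :
    mx k Set.univ n ≤ mx k S n := by
  obtain ⟨T, hT, hg, hc⟩ := mx_mem hk Set.univ n
  exact le_mx ⟨T, fun t ht => ⟨(hT t ht).1, (hT t ht).2.1, h t (hT t ht).1 (hT t ht).2.1⟩, hg, hc⟩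

lemma small_smooth {K s : ℕ} (h1 : 1 ≤ s) (h2 : s < K) : s ∈ Nat.smoothNumbers K := by
  rw [Nat.mem_smoothNumbers]
  refine ⟨by omega, fun p hp => ?_⟩
  have := Nat.le_of_mem_primeFactorsList hp
  omega

lemma card_window {r m Y : ℕ} (hr : 0 < r) (hY : (m + 1) * r ≤ Y) :
    ((Finset.range Y).filter (fun N => N / r = m)).card = r := by
  have : (Finset.range Y).filter (fun N => N / r = m) = Finset.Ico (m * r) ((m + 1) * r) := by
    ext N
    rw [Finset.mem_filter, Finset.mem_range, Finset.mem_Ico, Nat.div_eq_iff hr]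
    have : (m + 1) * r = m * r + r := by ring
    omega
  rw [this, Nat.card_Ico]
  have : (m + 1) * r = m * r + r := by ring
  omega

theorem gap {k : ℕ} (hk : 3 ≤ k) {α : ℝ}
    (hα : Tendsto (fun N : ℕ => (mx k Set.univ N : ℝ) / N) atTop (𝓝 α))
    (hb : ∀ K : ℕ, 2 ≤ K → (1 - 1 / ((K : ℝ) - 1)) * U k K ≤ α ∧ α ≤ U k K)
    {A : Set ℕ} (hA : GPF k A) {d : ℝ} (hd : Dens A d) : d < α := by
  classical
  have hle : d ≤ α := le_of_tendsto_of_tendsto' hd hα fun N => by
    have : (cnt A N : ℝ) ≤ mx k Set.univ N := by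
      exact_mod_cast cnt_le_mx hA (Set.subset_univ _) N
    exact div_le_div_of_nonneg_right this (Nat.cast_nonneg N)
  by_contra hlt
  push Not at hlt
  have hdα : d = α := le_antisymm hle hlt
  obtain ⟨m0, hm0, hno⟩ := no_perfect hk
  have key : ∀ K : ℕ, 2 ≤ K → m0 < K → P K / 4 ≤ 2 * (1 / ((K : ℝ) - 1)) * ((m0 : ℝ) + 1) ^ 2 := by
    intro K hK2 hmK
    have hK1 : (0 : ℝ) < (K : ℝ) - 1 := by
      have : (2 : ℝ) ≤ K := by exact_mod_cast hK2
      linarith
    set δ : ℝ := 1 / ((K : ℝ) - 1) with hδ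
    have hδ0 : 0 < δ := by positivity
    have hUα : U k K - α ≤ δ := by
      have h1 := (hb K hK2).1
      have h2 := U_le_one hk K
      have h3 := U_nonneg k K
      nlinarith
    set F : ℕ → Set ℕ := fun r => {s : ℕ | s ∈ Nat.smoothNumbers K ∧ s * r ∈ A} with hF
    have hmr : ∀ r, ∃ n, r ∈ Rough K → (1 ≤ n ∧ n ≤ m0 ∧ cnt (F r) n < mx k Set.univ n) := by
      intro r
      by_cases hr : r ∈ Rough K
      · have h1 := hno (F r) (fun n hn => Nat.pos_of_ne_zero (mem_smooth_iff.1 hn.1).1)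
          (gpf_fibre hA K hr.1)
        unfold Perfect at h1
        push Not at h1
        obtain ⟨n, h2, h3, h4⟩ := h1
        exact ⟨n, fun _ => ⟨h2, h3, h4⟩⟩
      · exact ⟨0, fun h => absurd h hr⟩
    choose m hm using hmr
    set Dn : Set ℕ := D K (G k (Nat.smoothNumbers K)) (Rough K) with hDn
    -- the defect at `N`
    have hdef : ∀ N X : ℕ, cnt A N +
        ((Finset.Icc 1 X).filter (fun r => r ∈ Rough K ∧ N / r = m r)).card ≤ cnt Dn N := by
      intro N X
      have h1 : ((Finset.Icc 1 X).filter (fun r => r ∈ Rough K ∧ N / r = m r)).card ≤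
          ∑ r ∈ (Finset.Icc 1 N).filter (· ∈ Rough K), if N / r = m r then 1 else 0 := by
        rw [← Finset.sum_filter, Finset.sum_const, smul_eq_mul, mul_one]
        apply Finset.card_le_card
        intro r hr
        rw [Finset.mem_filter, Finset.mem_Icc] at hr
        rw [Finset.mem_filter, Finset.mem_filter, Finset.mem_Icc]
        refine ⟨⟨⟨hr.1.1, ?_⟩, hr.2.1⟩, hr.2.2⟩
        by_contra hlt
        have h0 : N / r = 0 := Nat.div_eq_of_lt (by omega)
        have := (hm r hr.2.1).1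
        omega
      have h2 : cnt A N = ∑ r ∈ (Finset.Icc 1 N).filter (· ∈ Rough K), cnt (F r) (N / r) :=
        cnt_eq_sum_rough K A N
      have h3 : cnt Dn N = ∑ r ∈ (Finset.Icc 1 N).filter (· ∈ Rough K),
          mx k (Nat.smoothNumbers K) (N / r) := by
        rw [hDn, cnt_D_rough (G_sub hk _) le_rfl]
        refine Finset.sum_congr rfl fun r hr => ?_
        rw [Finset.mem_filter] at hr
        rw [if_pos hr.2, cnt_G hk]
      rw [h2, h3]
      refine (Nat.add_le_add_left h1 _).trans ?_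
      rw [← Finset.sum_add_distrib]
      refine Finset.sum_le_sum fun r hr => ?_
      rw [Finset.mem_filter] at hr
      have h4 : cnt (F r) (N / r) ≤ mx k (Nat.smoothNumbers K) (N / r) :=
        cnt_le_mx (gpf_fibre hA K hr.2.1) (fun s hs => hs.1) _
      split_ifs with h
      · obtain ⟨h5, h6, h7⟩ := hm r hr.2
        rw [← h] at h6 h7
        have h8 : mx k Set.univ (N / r) ≤ mx k (Nat.smoothNumbers K) (N / r) :=
          mx_le_of_all hk fun s hs1 hs2 => small_smooth hs1 (by omega)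
        omega
      · omega
    -- upper bound for the defect
    obtain ⟨N1, hN1⟩ := dens_event (U_dens hk K) (ε := δ / 4) (by positivity)
    obtain ⟨N2, hN2⟩ := dens_event hd (ε := δ / 4) (by positivity)
    set N0 := max N1 N2 with hN0
    have hup : ∀ N : ℕ, (cnt Dn N : ℝ) - cnt A N ≤ (3 / 2 * δ) * N + N0 := by
      intro N
      rcases Nat.lt_or_ge N N0 with h | h
      · have h1 : (cnt Dn N : ℝ) ≤ N := by exact_mod_cast cnt_le Dn N
        have h2 : (N : ℝ) ≤ N0 := by exact_mod_cast h.le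
        have h3 : (0 : ℝ) ≤ cnt A N := by positivity
        have h4 : (0 : ℝ) ≤ (3 / 2 * δ) * N := by positivity
        linarith
      · have h1 := hN1 N ((le_max_left _ _).trans h)
        have h2 := hN2 N ((le_max_right _ _).trans h)
        rw [abs_le] at h1 h2
        have h3 : (0 : ℝ) ≤ N := by positivity
        have h4 : (0 : ℝ) ≤ N0 := by positivity
        have h5 : (U k K - α) * N ≤ δ * N := mul_le_mul_of_nonneg_right hUα h3
        rw [hdα] at h2
        linarith [h1.1, h1.2, h2.1, h2.2]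
    -- double counting
    have hcount : ∀ X : ℕ, (∑ r ∈ (Finset.Icc 1 X).filter (· ∈ Rough K), (r : ℝ)) ≤
        ((m0 + 1) * X : ℕ) * ((3 / 2 * δ) * ((m0 + 1) * X : ℕ) + N0) := by
      intro X
      set Y := (m0 + 1) * X with hY
      have h1 : ∑ r ∈ (Finset.Icc 1 X).filter (· ∈ Rough K), r =
          ∑ N ∈ Finset.range Y,
            ((Finset.Icc 1 X).filter (fun r => r ∈ Rough K ∧ N / r = m r)).card := by
        have e1 : ∀ N, ((Finset.Icc 1 X).filter (fun r => r ∈ Rough K ∧ N / r = m r)).card =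
            ∑ r ∈ (Finset.Icc 1 X).filter (· ∈ Rough K), if N / r = m r then 1 else 0 := by
          intro N
          rw [← Finset.filter_filter, Finset.card_filter]
        simp only [e1]
        rw [Finset.sum_comm]
        refine Finset.sum_congr rfl fun r hr => ?_
        rw [Finset.mem_filter, Finset.mem_Icc] at hr
        rw [← Finset.card_filter, card_window hr.1.1]
        have := (hm r hr.2).2.1
        exact Nat.mul_le_mul (by omega) hr.1.2
      have h2 : (∑ r ∈ (Finset.Icc 1 X).filter (· ∈ Rough K), (r : ℝ)) =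
          ∑ N ∈ Finset.range Y,
            (((Finset.Icc 1 X).filter (fun r => r ∈ Rough K ∧ N / r = m r)).card : ℝ) := by
        rw [← Nat.cast_sum, ← Nat.cast_sum, h1]
      rw [h2]
      calc _ ≤ ∑ N ∈ Finset.range Y, ((3 / 2 * δ) * (Y : ℝ) + N0) := by
            refine Finset.sum_le_sum fun N hN => ?_
            rw [Finset.mem_range] at hN
            have h3 := hdef N X
            have h4 : (cnt A N : ℝ) +
              (((Finset.Icc 1 X).filter (fun r => r ∈ Rough K ∧ N / r = m r)).card : ℝ) ≤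
                cnt Dn N := by exact_mod_cast h3
            have h5 := hup N
            have h6 : (N : ℝ) ≤ Y := by exact_mod_cast hN.le
            have h7 : (3 / 2 * δ) * (N : ℝ) ≤ (3 / 2 * δ) * Y :=
              mul_le_mul_of_nonneg_left h6 (by positivity)
            linarith
        _ = _ := by rw [Finset.sum_const, Finset.card_range, nsmul_eq_mul]
    have hlow : ∀ X : ℕ, ((X : ℝ) / 2) * ((cnt (Rough K) X : ℝ) - cnt (Rough K) (X / 2)) ≤
        ∑ r ∈ (Finset.Icc 1 X).filter (· ∈ Rough K), (r : ℝ) := by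
      intro X
      have h1 : ((Finset.Icc 1 X).filter (· ∈ Rough K)).card ≤
          (((Finset.Icc 1 X).filter (· ∈ Rough K)).filter (fun r => X / 2 < r)).card +
            ((Finset.Icc 1 (X / 2)).filter (· ∈ Rough K)).card := by
        rw [← Finset.card_filter_add_card_filter_not (s := (Finset.Icc 1 X).filter (· ∈ Rough K))
          (fun r => X / 2 < r)]
        apply Nat.add_le_add_left
        apply Finset.card_le_card
        intro r hr
        rw [Finset.mem_filter, Finset.mem_filter, Finset.mem_Icc] at hr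
        rw [Finset.mem_filter, Finset.mem_Icc]
        exact ⟨⟨hr.1.1.1, by omega⟩, hr.1.2⟩
      rw [← cnt_eq_card, ← cnt_eq_card] at h1
      have h2 : (cnt (Rough K) X : ℝ) ≤
          (((Finset.Icc 1 X).filter (· ∈ Rough K)).filter (fun r => X / 2 < r)).card +
            cnt (Rough K) (X / 2) := by exact_mod_cast h1
      calc ((X : ℝ) / 2) * ((cnt (Rough K) X : ℝ) - cnt (Rough K) (X / 2))
          ≤ ((X : ℝ) / 2) *
            (((Finset.Icc 1 X).filter (· ∈ Rough K)).filter (fun r => X / 2 < r)).card := by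
            apply mul_le_mul_of_nonneg_left _ (by positivity)
            linarith
        _ = ∑ r ∈ ((Finset.Icc 1 X).filter (· ∈ Rough K)).filter (fun r => X / 2 < r),
            ((X : ℝ) / 2) := by rw [Finset.sum_const, nsmul_eq_mul, mul_comm]
        _ ≤ ∑ r ∈ ((Finset.Icc 1 X).filter (· ∈ Rough K)).filter (fun r => X / 2 < r),
            (r : ℝ) := by
            refine Finset.sum_le_sum fun r hr => ?_
            rw [Finset.mem_filter] at hr
            have h3 : X ≤ 2 * r := by omega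
            have h4 : (X : ℝ) ≤ 2 * r := by exact_mod_cast h3
            linarith
        _ ≤ _ := Finset.sum_le_sum_of_subset_of_nonneg (Finset.filter_subset _ _)
            (fun _ _ _ => by positivity)
    -- pass to the limit
    have hlim1 : Tendsto (fun X : ℕ => (1 / 2 : ℝ) *
        ((cnt (Rough K) X : ℝ) / X - (cnt (Rough K) (X / 2) : ℝ) / X)) atTop
        (𝓝 ((1 / 2) * (P K - P K * (1 / ((2 : ℕ) : ℝ))))) :=
      ((rough_dens K).sub (dens_scale (rough_dens K) 2 (by norm_num))).const_mul _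
    have hlim2 : Tendsto (fun X : ℕ => ((m0 : ℝ) + 1) *
        ((3 / 2 * δ) * ((m0 : ℝ) + 1) + (N0 : ℝ) / X)) atTop
        (𝓝 (((m0 : ℝ) + 1) * ((3 / 2 * δ) * ((m0 : ℝ) + 1) + 0))) :=
      (tendsto_const_nhds.add (tendsto_const_div_atTop_nhds_zero_nat _)).const_mul _
    have hfin := le_of_tendsto_of_tendsto hlim1 hlim2 (by
      filter_upwards [eventually_ge_atTop 1] with X hX
      have hXr : (0 : ℝ) < X := by exact_mod_cast hX
      have h1 := (hlow X).trans (hcount X)
      have h2 : (1 / 2 : ℝ) * ((cnt (Rough K) X : ℝ) / X - (cnt (Rough K) (X / 2) : ℝ) / X) =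
          (((X : ℝ) / 2) * ((cnt (Rough K) X : ℝ) - cnt (Rough K) (X / 2))) / (X ^ 2) := by
        field_simp
      rw [h2, div_le_iff₀ (by positivity)]
      refine h1.trans (le_of_eq ?_)
      push_cast
      field_simp)
    push_cast at hfin
    have hm0' : (0 : ℝ) ≤ ((m0 : ℝ) + 1) ^ 2 := by positivity
    nlinarith
  -- contradiction for large `K`
  set B : ℕ := 64 * (m0 + 1) ^ 4 with hB
  have hBm : m0 < 4 * B + 10 := by
    have h1 : m0 + 1 ≤ (m0 + 1) ^ 4 := Nat.le_self_pow (by norm_num) _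
    omega
  have h1 := key (4 * B + 10) (by omega) hBm
  have h2 := P_sq_ge (4 * B + 10)
  have h3 := P_pos (4 * B + 10)
  set p := P (4 * B + 10) with hp
  have hBr : (B : ℝ) = 64 * ((m0 : ℝ) + 1) ^ 4 := by rw [hB]; push_cast; ring
  push_cast at h1 h2
  set b : ℝ := (B : ℝ) with hb'
  have hb0 : 0 ≤ b := by rw [hb']; positivity
  have h4 : p * (4 * b + 9) ≤ 8 * ((m0 : ℝ) + 1) ^ 2 := by
    have e1 : 4 * b + 10 - 1 = 4 * b + 9 := by ring
    rw [e1] at h1
    have h5 : (0 : ℝ) < 4 * b + 9 := by positivity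
    have h6 : p / 4 * (4 * b + 9) ≤ 2 * (1 / (4 * b + 9)) * ((m0 : ℝ) + 1) ^ 2 * (4 * b + 9) :=
      mul_le_mul_of_nonneg_right h1 h5.le
    have h7 : 2 * (1 / (4 * b + 9)) * ((m0 : ℝ) + 1) ^ 2 * (4 * b + 9) =
        2 * ((m0 : ℝ) + 1) ^ 2 := by field_simp
    rw [h7] at h6
    linarith
  have h5 : (p * (4 * b + 9)) ^ 2 ≤ b := by
    have h6 : 0 ≤ p * (4 * b + 9) := by positivity
    calc (p * (4 * b + 9)) ^ 2 ≤ (8 * ((m0 : ℝ) + 1) ^ 2) ^ 2 := pow_le_pow_left₀ h6 h4 2
      _ = b := by rw [hBr]; ring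
  have h6 : 1 / (4 * (4 * b + 10 + 1)) * (4 * b + 9) ^ 2 ≤ b := by
    calc 1 / (4 * (4 * b + 10 + 1)) * (4 * b + 9) ^ 2 ≤ p ^ 2 * (4 * b + 9) ^ 2 :=
          mul_le_mul_of_nonneg_right h2 (by positivity)
      _ = (p * (4 * b + 9)) ^ 2 := by ring
      _ ≤ b := h5
  rw [div_mul_eq_mul_div, one_mul, div_le_iff₀ (by positivity)] at h6
  nlinarith

end Pool.Agent.Helper47K9.UD
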